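import Pool.Agent.Q295.KU.Stm

set_option autoImplicit false

open Finset MeasureTheory ProbabilityTheory

namespace Pool.Agent.Q179.KU

open Pool.Agent.Q295.KU

/-- Hoeffding's lemma for a two-point law -/
theorem hoe : S_HOE := by
  intro δ h0 h1 b
  set p : ℝ := 1 / 2 + δ with hp
  set q : ℝ := 1 / 2 - δ with hq
  have hp0 : 0 ≤ p := by positivity
  have hq0 : 0 ≤ q := by
    rw [hq]
    linarith
  have hpq : p + q = 1 := by
    rw [hp, hq]
    ring
  set ν : Measure ℝ := ENNReal.ofReal p • Measure.dirac (1 : ℝ) +
    ENNReal.ofReal q • Measure.dirac (-1 : ℝ) with hν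
  have hprob : IsProbabilityMeasure ν := by
    constructor
    rw [hν, Measure.add_apply, Measure.smul_apply, Measure.smul_apply, Measure.dirac_apply' _
      MeasurableSet.univ, Measure.dirac_apply' _ MeasurableSet.univ]
    simp only [Set.indicator_univ, Pi.one_apply, smul_eq_mul, mul_one]
    rw [← ENNReal.ofReal_add hp0 hq0, hpq, ENNReal.ofReal_one]
  have hint : ∀ f : ℝ → ℝ, Measurable f → ∫ x, f x ∂ν = p * f 1 + q * f (-1) := by
    intro f hf
    have hi : ∀ a : ℝ, Integrable f (Measure.dirac a) := fun a => by
      apply integrable_dirac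
      simp
    rw [hν, integral_add_measure ((hi 1).smul_measure ENNReal.ofReal_ne_top)
      ((hi (-1)).smul_measure ENNReal.ofReal_ne_top), integral_smul_measure,
      integral_smul_measure, integral_dirac, integral_dirac, ENNReal.toReal_ofReal hp0,
      ENNReal.toReal_ofReal hq0]
    rfl
  have hmean : ∫ x, x ∂ν = 2 * δ := by
    have := hint (fun x => x) measurable_id
    rw [this, hp, hq]
    ring
  have hmem : ∀ᵐ x ∂ν, x ∈ Set.Icc (-1 : ℝ) 1 := by
    rw [ae_iff, hν, Measure.add_apply, Measure.smul_apply, Measure.smul_apply]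
    have hm : MeasurableSet {a : ℝ | a ∉ Set.Icc (-1 : ℝ) 1} := measurableSet_Icc.compl
    rw [Measure.dirac_apply' _ hm, Measure.dirac_apply' _ hm]
    simp
  have hsub := hasSubgaussianMGF_of_mem_Icc (μ := ν) (X := fun x => x) aemeasurable_id hmem
  have h2 := hsub.mgf_le b
  unfold mgf at h2
  rw [hmean] at h2
  rw [hint (fun x => Real.exp (b * (x - 2 * δ))) (by fun_prop)] at h2
  have h3 : (((‖(1 : ℝ) - -1‖₊ / 2) ^ 2 : NNReal) : ℝ) = 1 := by
    push_cast
    norm_num
  have h4 : b * (-1 - 2 * δ) = -(b * (1 + 2 * δ)) := by ring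
  rw [h4] at h2
  refine h2.trans (le_of_eq ?_)
  congr 1
  have h5 : ((((‖(1 : ℝ) - -1‖₊ / 2) ^ 2 : NNReal) : ℝ)) * b ^ 2 / 2 = b ^ 2 / 2 := by
    rw [h3, one_mul]
  exact h5

lemma sum_prod_prod {n : ℕ} (F : Fin n → Fin n → Bool → ℝ) :
    ∑ s : Fin n → Fin n → Bool, ∏ i, ∏ j, F i j (s i j) = ∏ i, ∏ j, (F i j true + F i j false) := by
  have h1 : ∀ i, ∑ r : Fin n → Bool, ∏ j, F i j (r j) = ∏ j, (F i j true + F i j false) := by
    intro i
    have := Finset.prod_univ_sum (fun _ : Fin n => (univ : Finset Bool)) (F i)
    rw [Fintype.piFinset_univ] at this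
    rw [← this]
    exact Finset.prod_congr rfl fun j _ => by rw [Fintype.sum_bool]
  have h2 := Finset.prod_univ_sum (fun _ : Fin n => (univ : Finset (Fin n → Bool)))
    (fun i r => ∏ j, F i j (r j))
  rw [Fintype.piFinset_univ] at h2
  rw [← h2]
  exact Finset.prod_congr rfl fun i _ => h1 i

theorem exw : S_EXW := by
  intro n δ h0 h1
  constructor
  · set F : Fin n → Fin n → Bool → ℝ := fun i j x => if i < j then (if x = true then (1 / 2 : ℝ) + δ
          else (1 / 2 : ℝ) - δ) else (1 / 2 : ℝ) with hF
    have h2 : ∀ s : Fin n → Fin n → Bool, W8 δ s = ∏ i, ∏ j, F i j (s i j) := fun s => rfl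
    rw [Finset.sum_congr rfl fun s _ => h2 s, sum_prod_prod]
    apply Finset.prod_eq_one
    intro i _
    apply Finset.prod_eq_one
    intro j _
    rw [hF]
    by_cases h : i < j
    · simp only [h, if_true]
      norm_num
    · simp only [h, if_false]
      norm_num
  · intro b
    set F : Fin n → Fin n → Bool → ℝ := fun i j x =>
      if i < j then (if x = true then ((1 / 2 : ℝ) + δ) * Real.exp (b i j * (1 - 2 * δ))
          else ((1 / 2 : ℝ) - δ) * Real.exp (-(b i j * (1 + 2 * δ)))) else (1 / 2 : ℝ) with hF
    have h2 : ∀ s : Fin n → Fin n → Bool, W8 δ s *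
        Real.exp (∑ i, ∑ j, if i < j then b i j * (Am s i j - 2 * δ) else 0) =
        ∏ i, ∏ j, F i j (s i j) := by
      intro s
      unfold W8
      rw [Real.exp_sum, ← Finset.prod_mul_distrib]
      apply Finset.prod_congr rfl
      intro i _
      rw [Real.exp_sum, ← Finset.prod_mul_distrib]
      apply Finset.prod_congr rfl
      intro j _
      rw [hF]
      by_cases h : i < j
      · simp only [h, if_true, Am]
        cases s i j
        · simp only [Bool.false_eq_true, if_false]
          congr 2
          ring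
        · simp only [if_true]
      · simp only [h, if_false, Real.exp_zero, mul_one]
    rw [Finset.sum_congr rfl fun s _ => h2 s, sum_prod_prod, Real.exp_sum]
    have hpos : ∀ i j, 0 ≤ F i j true + F i j false := by
      intro i j
      rw [hF]
      by_cases h : i < j
      · simp only [h, if_true, Bool.false_eq_true, if_false]
        have h3 : (0 : ℝ) ≤ 1 / 2 - δ := by linarith
        positivity
      · simp only [h, if_false]
        norm_num
    apply Finset.prod_le_prod
    · intro i _
      exact Finset.prod_nonneg fun j _ => hpos i j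
    · intro i _
      rw [Real.exp_sum]
      apply Finset.prod_le_prod
      · intro j _
        exact hpos i j
      · intro j _
        rw [hF]
        by_cases h : i < j
        · simp only [h, if_true, Bool.false_eq_true, if_false]
          exact hoe δ h0 h1 (b i j)
        · simp only [h, if_false, Real.exp_zero]
          norm_num

end Pool.Agent.Q179.KU
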