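import Pool.Agent.Q295.KU.Stm

set_option autoImplicit false

open Finset Filter Topology

namespace Pool.Agent.Q179.KU

open Pool.Agent.Q295.KU

/-- rounding towards zero -/
lemma trunc (x : ℝ) : ∃ k : ℤ, |(k : ℝ)| ≤ |x| ∧ |x - k| ≤ 1 := by
  rcases le_total 0 x with h | h
  · refine ⟨⌊x⌋, ?_, ?_⟩
    · rw [abs_of_nonneg h, abs_of_nonneg (by exact_mod_cast Int.floor_nonneg.2 h)]
      exact Int.floor_le x
    · rw [abs_of_nonneg (by linarith [Int.floor_le x])]
      linarith [Int.lt_floor_add_one x]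
  · refine ⟨⌈x⌉, ?_, ?_⟩
    · rw [abs_of_nonpos h, abs_of_nonpos (by exact_mod_cast Int.ceil_le.2 (by simpa using h))]
      linarith [Int.le_ceil x]
    · rw [abs_of_nonpos (by linarith [Int.le_ceil x])]
      linarith [Int.ceil_lt_add_one x]

section

variable {n : ℕ}

/-- the quadratic form -/
def qf (M : Fin n → Fin n → ℝ) (x : Fin n → ℝ) : ℝ := ∑ i, ∑ j, M i j * x i * x j

lemma net_step (hSYM : S_SYM) {M : Fin n → Fin n → ℝ} {τ κ : ℝ} (hn : 0 < n) (hτ : 0 ≤ τ)
    (hM : ∀ i j, M i j = M j i)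
    (hk : ∀ k : Fin n → ℤ, ∑ i, (k i : ℝ) ^ 2 ≤ 16 * n →
      |∑ i, ∑ j, M i j * (k i : ℝ) * (k j : ℝ)| ≤ 16 * n * τ)
    (hκ : 0 < κ) (hQ : QB M κ) : QB M (τ + κ / 2) := by
  intro x
  have hn0 : (0 : ℝ) < n := by exact_mod_cast hn
  have hX0 : 0 ≤ ∑ i, x i ^ 2 := Finset.sum_nonneg fun i _ => sq_nonneg _
  rcases hX0.eq_or_lt with h0 | h0
  · have hx : ∀ i, x i = 0 := by
      intro i
      have := (Finset.sum_eq_zero_iff_of_nonneg (fun i _ => sq_nonneg (x i))).1 h0.symm i
        (Finset.mem_univ i)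
      exact pow_eq_zero_iff two_ne_zero |>.1 this
    simp [hx]
  set X := ∑ i, x i ^ 2 with hX
  set s : ℝ := Real.sqrt X with hs
  have hs0 : 0 < s := Real.sqrt_pos.2 h0
  have hs2 : s ^ 2 = X := Real.sq_sqrt hX0
  set w : ℝ := 4 * Real.sqrt n with hw
  have hw0 : 0 < w := by positivity
  have hw2 : w ^ 2 = 16 * n := by
    rw [hw, mul_pow, Real.sq_sqrt hn0.le]
    norm_num
  choose k hk1 hk2 using fun i => trunc (w * x i / s)
  set y : Fin n → ℝ := fun i => s / w * k i with hy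
  have hswp : 0 < s / w := by positivity
  have hyx : ∀ i, |y i| ≤ |x i| := by
    intro i
    have h1 := hk1 i
    have h2 : |w * x i / s| = w / s * |x i| := by
      rw [abs_div, abs_mul, abs_of_pos hw0, abs_of_pos hs0]
      ring
    rw [h2] at h1
    have h3 : |y i| = s / w * |(k i : ℝ)| := by
      rw [hy]
      simp only
      rw [abs_mul, abs_of_pos hswp]
    rw [h3]
    calc s / w * |(k i : ℝ)| ≤ s / w * (w / s * |x i|) := mul_le_mul_of_nonneg_left h1 hswp.le
      _ = |x i| := by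
        field_simp
  have hxy : ∀ i, |x i - y i| ≤ s / w := by
    intro i
    have h1 : x i - y i = s / w * (w * x i / s - k i) := by
      rw [hy]
      field_simp
    rw [h1, abs_mul, abs_of_pos hswp]
    have := mul_le_mul_of_nonneg_left (hk2 i) hswp.le
    linarith
  have hksum : ∑ i, (k i : ℝ) ^ 2 ≤ 16 * n := by
    have h1 : ∀ i, (k i : ℝ) ^ 2 ≤ (w / s) ^ 2 * x i ^ 2 := by
      intro i
      have h2 : (k i : ℝ) ^ 2 ≤ (w * x i / s) ^ 2 := sq_le_sq.2 (hk1 i)
      have h3 : (w * x i / s) ^ 2 = (w / s) ^ 2 * x i ^ 2 := by ring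
      linarith
    calc ∑ i, (k i : ℝ) ^ 2 ≤ ∑ i, (w / s) ^ 2 * x i ^ 2 := Finset.sum_le_sum fun i _ => h1 i
      _ = (w / s) ^ 2 * X := by rw [Finset.mul_sum]
      _ = 16 * n := by
        rw [div_pow, hw2, hs2]
        field_simp
  have hqy : |qf M y| ≤ τ * X := by
    have h1 : qf M y = (s / w) ^ 2 * ∑ i, ∑ j, M i j * (k i : ℝ) * (k j : ℝ) := by
      unfold qf
      rw [Finset.mul_sum]
      apply Finset.sum_congr rfl
      intro i _
      rw [Finset.mul_sum]
      apply Finset.sum_congr rfl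
      intro j _
      rw [hy]
      ring
    rw [h1, abs_mul, abs_of_nonneg (sq_nonneg _)]
    calc (s / w) ^ 2 * |∑ i, ∑ j, M i j * (k i : ℝ) * (k j : ℝ)|
        ≤ (s / w) ^ 2 * (16 * n * τ) := mul_le_mul_of_nonneg_left (hk k hksum) (sq_nonneg _)
      _ = τ * X := by
        rw [div_pow, hw2, hs2]
        field_simp
  -- the difference
  set u : Fin n → ℝ := fun i => x i + y i with hu
  set v : Fin n → ℝ := fun i => x i - y i with hv
  have hdiff : qf M x - qf M y = ∑ i, v i * ∑ j, M i j * u j := by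
    have h1 : ∑ i, ∑ j, M i j * x i * y j = ∑ i, ∑ j, M i j * y i * x j := by
      rw [Finset.sum_comm]
      apply Finset.sum_congr rfl
      intro i _
      apply Finset.sum_congr rfl
      intro j _
      rw [hM i j]
      ring
    have h2 : ∑ i, v i * ∑ j, M i j * u j = ∑ i, ∑ j, M i j * x i * x j +
        ∑ i, ∑ j, M i j * x i * y j - ∑ i, ∑ j, M i j * y i * x j -
          ∑ i, ∑ j, M i j * y i * y j := by
      rw [← Finset.sum_add_distrib, ← Finset.sum_sub_distrib, ← Finset.sum_sub_distrib]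
      apply Finset.sum_congr rfl
      intro i _
      rw [← Finset.sum_add_distrib, ← Finset.sum_sub_distrib, ← Finset.sum_sub_distrib,
        Finset.mul_sum]
      apply Finset.sum_congr rfl
      intro j _
      rw [hu, hv]
      ring
    rw [h2, h1]
    unfold qf
    ring
  have hvs : ∑ i, v i ^ 2 ≤ X / 16 := by
    calc ∑ i, v i ^ 2 ≤ ∑ _i : Fin n, (s / w) ^ 2 := by
          apply Finset.sum_le_sum
          intro i _
          rw [← sq_abs (v i)]
          exact pow_le_pow_left₀ (abs_nonneg _) (hxy i) 2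
      _ = X / 16 := by
          rw [Finset.sum_const, Finset.card_univ, Fintype.card_fin, nsmul_eq_mul, div_pow, hw2, hs2]
          field_simp
  have hus : ∑ i, u i ^ 2 ≤ 4 * X := by
    rw [hX, Finset.mul_sum]
    apply Finset.sum_le_sum
    intro i _
    have h1 : |u i| ≤ 2 * |x i| := by
      have := abs_add_le (x i) (y i)
      have := hyx i
      change |x i + y i| ≤ _
      linarith
    have h2 : |u i| ^ 2 ≤ (2 * |x i|) ^ 2 := pow_le_pow_left₀ (abs_nonneg _) h1 2
    rw [sq_abs, mul_pow, sq_abs] at h2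
    linarith
  have hMu : ∑ i, (∑ j, M i j * u j) ^ 2 ≤ κ ^ 2 * (4 * X) :=
    (hSYM n M κ hκ hM hQ u).trans (mul_le_mul_of_nonneg_left hus (sq_nonneg _))
  have hCS : (qf M x - qf M y) ^ 2 ≤ (κ / 2 * X) ^ 2 := by
    rw [hdiff]
    have h1 := Finset.sum_mul_sq_le_sq_mul_sq univ v (fun i => ∑ j, M i j * u j)
    refine h1.trans ?_
    have h2 : 0 ≤ ∑ i, (∑ j, M i j * u j) ^ 2 := Finset.sum_nonneg fun i _ => sq_nonneg _
    calc (∑ i, v i ^ 2) * ∑ i, (∑ j, M i j * u j) ^ 2
        ≤ X / 16 * ∑ i, (∑ j, M i j * u j) ^ 2 := mul_le_mul_of_nonneg_right hvs h2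
      _ ≤ X / 16 * (κ ^ 2 * (4 * X)) := mul_le_mul_of_nonneg_left hMu (by positivity)
      _ = (κ / 2 * X) ^ 2 := by ring
  have hab : |qf M x - qf M y| ≤ κ / 2 * X := abs_le_of_sq_le_sq hCS (by positivity)
  have h5 : |qf M x| ≤ |qf M y| + |qf M x - qf M y| := by
    have := abs_add_le (qf M y) (qf M x - qf M y)
    rw [add_sub_cancel] at this
    exact this
  change |qf M x| ≤ (τ + κ / 2) * X
  linarith

lemma exists_QB (M : Fin n → Fin n → ℝ) : ∃ κ : ℝ, 0 < κ ∧ QB M κ := by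
  refine ⟨∑ i, ∑ j, |M i j| + 1, by positivity, ?_⟩
  intro x
  set X := ∑ i, x i ^ 2 with hX
  have hX0 : 0 ≤ X := Finset.sum_nonneg fun i _ => sq_nonneg _
  have hxi : ∀ i, x i ^ 2 ≤ X := fun i =>
    Finset.single_le_sum (f := fun i => x i ^ 2) (fun i _ => sq_nonneg _) (Finset.mem_univ i)
  have h1 : |∑ i, ∑ j, M i j * x i * x j| ≤ ∑ i, ∑ j, |M i j| * X := by
    refine (Finset.abs_sum_le_sum_abs _ _).trans (Finset.sum_le_sum fun i _ => ?_)
    refine (Finset.abs_sum_le_sum_abs _ _).trans (Finset.sum_le_sum fun j _ => ?_)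
    rw [mul_assoc, abs_mul]
    apply mul_le_mul_of_nonneg_left _ (abs_nonneg _)
    rw [abs_le]
    have h2 := hxi i
    have h3 := hxi j
    constructor <;> nlinarith [sq_nonneg (x i + x j), sq_nonneg (x i - x j)]
  refine h1.trans ?_
  simp only [← Finset.sum_mul]
  nlinarith

end

theorem net (hSYM : S_SYM) : S_NET := by
  intro n M τ hn hτ hM hk
  obtain ⟨κ₀, h0, hQ0⟩ := exists_QB M
  set κ : ℕ → ℝ := fun m => 2 * τ + κ₀ / 2 ^ m with hκ
  have hpos : ∀ m, 0 < κ m := by
    intro m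
    rw [hκ]
    positivity
  have hQ : ∀ m, QB M (κ m) := by
    intro m
    induction m with
    | zero =>
      intro x
      refine (hQ0 x).trans ?_
      apply mul_le_mul_of_nonneg_right _ (Finset.sum_nonneg fun i _ => sq_nonneg _)
      rw [hκ]
      simp only [pow_zero, div_one]
      linarith
    | succ m ih =>
      have h1 := net_step hSYM hn hτ hM hk (hpos m) ih
      have h2 : τ + κ m / 2 = κ (m + 1) := by
        rw [hκ]
        simp only
        rw [pow_succ]
        field_simp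
        ring
      rwa [h2] at h1
  have hlim : Tendsto κ atTop (𝓝 (2 * τ)) := by
    have h1 : Tendsto (fun m : ℕ => 2 * τ + κ₀ / 2 ^ m) atTop (𝓝 (2 * τ + 0)) := by
      apply Tendsto.const_add
      exact tendsto_const_nhds.div_atTop (tendsto_pow_atTop_atTop_of_one_lt one_lt_two)
    rwa [add_zero] at h1
  intro x
  have h2 : Tendsto (fun m => κ m * ∑ i, x i ^ 2) atTop (𝓝 (2 * τ * ∑ i, x i ^ 2)) :=
    hlim.mul_const _
  exact ge_of_tendsto' h2 fun m => hQ m x

end Pool.Agent.Q179.KU
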