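import Pool.Agent.Q179.KU.Row
import Pool.Agent.Q179.KU.Net

set_option autoImplicit false

open Finset

namespace Pool.Agent.Q179.KU

open Pool.Agent.Q295.KU

/-- symmetric sums off the diagonal -/
lemma sum_offdiag {n : ℕ} (G : Fin n → Fin n → ℝ) (hs : ∀ i j, G i j = G j i)
    (hd : ∀ i, G i i = 0) :
    ∑ i, ∑ j, G i j = 2 * ∑ i, ∑ j, (if i < j then G i j else 0) := by
  have h1 : ∑ i, ∑ j, G i j = ∑ i, ∑ j, (if i < j then G i j else 0) +
      ∑ i, ∑ j, (if j < i then G i j else 0) := by
    rw [← Finset.sum_add_distrib]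
    apply Finset.sum_congr rfl
    intro i _
    rw [← Finset.sum_add_distrib]
    apply Finset.sum_congr rfl
    intro j _
    rcases lt_trichotomy i j with h | h | h
    · rw [if_pos h, if_neg h.le.not_gt, add_zero]
    · subst h
      simp [hd]
    · rw [if_neg h.le.not_gt, if_pos h, zero_add]
  have h2 : ∑ i, ∑ j, (if j < i then G i j else 0) = ∑ i, ∑ j, (if i < j then G i j else 0) := by
    rw [Finset.sum_comm]
    apply Finset.sum_congr rfl
    intro i _
    apply Finset.sum_congr rfl
    intro j _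
    rw [hs]
  rw [h1, h2]
  ring

/-- the centred matrix -/
noncomputable def Mc {n : ℕ} (δ : ℝ) (s : Fin n → Fin n → Bool) (i j : Fin n) : ℝ :=
  if i = j then 0 else Am s i j - 2 * δ

lemma Mc_symm {n : ℕ} (δ : ℝ) (s : Fin n → Fin n → Bool) (i j : Fin n) :
    Mc δ s i j = Mc δ s j i := by
  unfold Mc
  by_cases h : i = j
  · subst h
    rfl
  · rw [if_neg h, if_neg (Ne.symm h), Am_symm]

lemma qk_eq {n : ℕ} (δ : ℝ) (s : Fin n → Fin n → Bool) (k : Fin n → ℝ) :
    ∑ i, ∑ j, Mc δ s i j * k i * k j =
      2 * ∑ i, ∑ j, (if i < j then (Am s i j - 2 * δ) * k i * k j else 0) := by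
  rw [sum_offdiag (fun i j => Mc δ s i j * k i * k j)]
  · congr 1
    apply Finset.sum_congr rfl
    intro i _
    apply Finset.sum_congr rfl
    intro j _
    by_cases h : i < j
    · rw [if_pos h, if_pos h]
      unfold Mc
      rw [if_neg h.ne]
    · rw [if_neg h, if_neg h]
  · intro i j
    rw [Mc_symm]
    ring
  · intro i
    unfold Mc
    rw [if_pos rfl]
    ring

theorem nrm (hNET : S_NET) : S_NRM := by
  intro n δ hn h0 h1
  classical
  have hn0 : (0 : ℝ) < n := by exact_mod_cast hn
  have hn1 : (1 : ℝ) ≤ n := by exact_mod_cast hn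
  set r : ℝ := Real.sqrt n with hr
  have hr1 : 1 ≤ r := Real.one_le_sqrt.2 hn1
  have hr0 : 0 < r := by linarith
  have hr2 : r ^ 2 = n := Real.sq_sqrt hn0.le
  set K := (Fintype.piFinset fun _ : Fin n => Finset.Icc (-(4 * n : ℤ)) (4 * n)).filter
    fun k => ∑ i, (k i : ℝ) ^ 2 ≤ 16 * n with hK
  set T : ℝ := 16 * n * (7 * r) with hT
  set lam : ℝ := T / (2 * (16 * n) ^ 2) with hlam
  have hlam0 : 0 < lam := by positivity
  set q : (Fin n → Fin n → Bool) → (Fin n → ℤ) → ℝ := fun s k =>
    ∑ i, ∑ j, Mc δ s i j * (k i : ℝ) * (k j : ℝ) with hq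
  -- lattice points in the ball lie in the box
  have hbox : ∀ k : Fin n → ℤ, ∑ i, (k i : ℝ) ^ 2 ≤ 16 * n → k ∈ K := by
    intro k hk
    rw [hK, Finset.mem_filter, Fintype.mem_piFinset]
    refine ⟨fun i => ?_, hk⟩
    have h2 : (k i : ℝ) ^ 2 ≤ ∑ i, (k i : ℝ) ^ 2 :=
      Finset.single_le_sum (f := fun i => (k i : ℝ) ^ 2) (fun i _ => sq_nonneg _)
        (Finset.mem_univ i)
    have h3 : (k i : ℝ) ^ 2 ≤ (4 * n : ℝ) ^ 2 := by nlinarith
    have h4 := abs_le_of_sq_le_sq' h3 (by positivity)
    rw [Finset.mem_Icc]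
    constructor
    · have h5 : ((-(4 * n : ℤ) : ℤ) : ℝ) ≤ ((k i : ℤ) : ℝ) := by
        push_cast
        linarith [h4.1]
      exact_mod_cast h5
    · have h5 : ((k i : ℤ) : ℝ) ≤ (((4 * n : ℤ) : ℤ) : ℝ) := by
        push_cast
        linarith [h4.2]
      exact_mod_cast h5
  -- the bad event
  have hbad : ∀ s : Fin n → Fin n → Bool, ¬ QB (fun i j => Am s i j - 2 * δ) (15 * r) →
      ∃ k ∈ K, T < |q s k| := by
    intro s hs
    by_contra h
    push Not at h
    apply hs
    have h2 := hNET n (Mc δ s) (7 * r) hn (by positivity) (Mc_symm δ s) (fun k hk =>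
      h k (hbox k hk))
    intro x
    have h3 := h2 x
    have hX : 0 ≤ ∑ i, x i ^ 2 := Finset.sum_nonneg fun i _ => sq_nonneg _
    have h4 : ∑ i, ∑ j, (Am s i j - 2 * δ) * x i * x j =
        ∑ i, ∑ j, Mc δ s i j * x i * x j - 2 * δ * ∑ i, x i ^ 2 := by
      rw [Finset.mul_sum, ← Finset.sum_sub_distrib]
      apply Finset.sum_congr rfl
      intro i _
      have h5 : 2 * δ * x i ^ 2 = ∑ j, if j = i then 2 * δ * x i * x j else 0 := by
        rw [Finset.sum_ite_eq' univ i (fun j => 2 * δ * x i * x j), if_pos (Finset.mem_univ _)]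
        ring
      rw [h5, ← Finset.sum_sub_distrib]
      apply Finset.sum_congr rfl
      intro j _
      unfold Mc
      by_cases hij : j = i
      · subst hij
        rw [if_pos rfl, if_pos rfl, Am_self]
        ring
      · rw [if_neg (Ne.symm hij), if_neg hij]
        ring
    simp only
    rw [h4]
    have h6 : 2 * δ * ∑ i, x i ^ 2 ≤ r * ∑ i, x i ^ 2 :=
      mul_le_mul_of_nonneg_right (by linarith) hX
    have h7 : 0 ≤ 2 * δ * ∑ i, x i ^ 2 := by positivity
    rw [abs_le] at h3 ⊢
    constructor <;> linarith [h3.1, h3.2]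
  -- the exponential moment
  have hexp : ∀ k ∈ K, ∀ σ : ℝ, σ ^ 2 = 1 → ∑ s : Fin n → Fin n → Bool,
      W8 δ s * Real.exp (σ * lam * q s k - lam * T) ≤ Real.exp (-(49 / 4 * n)) := by
    intro k hk σ hσ
    rw [hK, Finset.mem_filter] at hk
    have h2 := (exw n δ h0 h1).2 (fun i j => 2 * (σ * lam) * k i * k j)
    have h3 : ∀ s, W8 δ s * Real.exp (σ * lam * q s k - lam * T) = Real.exp (-(lam * T)) *
        (W8 δ s * Real.exp (∑ i, ∑ j, if i < j then
          2 * (σ * lam) * k i * k j * (Am s i j - 2 * δ) else 0)) := by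
      intro s
      have h4 : σ * lam * q s k = ∑ i, ∑ j, if i < j then
          2 * (σ * lam) * k i * k j * (Am s i j - 2 * δ) else 0 := by
        rw [hq]
        simp only
        rw [qk_eq, Finset.mul_sum, Finset.mul_sum]
        apply Finset.sum_congr rfl
        intro i _
        rw [Finset.mul_sum, Finset.mul_sum]
        apply Finset.sum_congr rfl
        intro j _
        split_ifs
        · ring
        · ring
      rw [h4, sub_eq_add_neg, Real.exp_add]
      ring
    rw [Finset.sum_congr rfl fun s _ => h3 s, ← Finset.mul_sum]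
    have h5 : (∑ i, ∑ j, if i < j then (2 * (σ * lam) * (k i : ℝ) * k j) ^ 2 / 2 else 0) ≤
        lam ^ 2 * (16 * n) ^ 2 := by
      have h6 : ∀ i j : Fin n, (if i < j then (2 * (σ * lam) * (k i : ℝ) * k j) ^ 2 / 2 else 0) =
          2 * lam ^ 2 * (if i < j then (if i = j then 0 else (k i : ℝ) ^ 2 * (k j : ℝ) ^ 2)
            else 0) := by
        intro i j
        by_cases h : i < j
        · rw [if_pos h, if_pos h, if_neg h.ne]
          have : (2 * (σ * lam) * (k i : ℝ) * k j) ^ 2 / 2 =
              2 * (σ ^ 2) * lam ^ 2 * ((k i : ℝ) ^ 2 * (k j : ℝ) ^ 2) := by ring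
          rw [this, hσ]
          ring
        · rw [if_neg h, if_neg h, mul_zero]
      simp only [h6, ← Finset.mul_sum]
      have h7 := sum_offdiag (fun i j : Fin n => if i = j then 0 else (k i : ℝ) ^ 2 * (k j : ℝ) ^ 2)
        (fun i j => by
          by_cases h : i = j
          · subst h
            rfl
          · rw [if_neg h, if_neg (Ne.symm h), mul_comm])
        (fun i => by rw [if_pos rfl])
      have h8 : ∑ i : Fin n, ∑ j : Fin n, (if i = j then 0 else (k i : ℝ) ^ 2 * (k j : ℝ) ^ 2) ≤
          (16 * n) ^ 2 := by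
        calc _ ≤ ∑ i : Fin n, ∑ j : Fin n, (k i : ℝ) ^ 2 * (k j : ℝ) ^ 2 := by
              apply Finset.sum_le_sum
              intro i _
              apply Finset.sum_le_sum
              intro j _
              split_ifs
              · positivity
              · exact le_rfl
          _ = (∑ i, (k i : ℝ) ^ 2) ^ 2 := by
              rw [sq (∑ i, (k i : ℝ) ^ 2), Finset.sum_mul_sum]
          _ ≤ (16 * n) ^ 2 := by
              apply pow_le_pow_left₀ (Finset.sum_nonneg fun i _ => sq_nonneg _) hk.2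
      have h9 : 2 * lam ^ 2 * ∑ i : Fin n, ∑ j : Fin n, (if i < j then
          (if i = j then 0 else (k i : ℝ) ^ 2 * (k j : ℝ) ^ 2) else 0) =
          lam ^ 2 * ∑ i : Fin n, ∑ j : Fin n,
            (if i = j then 0 else (k i : ℝ) ^ 2 * (k j : ℝ) ^ 2) := by
        rw [h7]
        ring
      rw [h9]
      exact mul_le_mul_of_nonneg_left h8 (sq_nonneg _)
    calc Real.exp (-(lam * T)) * ∑ s : Fin n → Fin n → Bool, W8 δ s *
          Real.exp (∑ i, ∑ j, if i < j then
            2 * (σ * lam) * k i * k j * (Am s i j - 2 * δ) else 0)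
        ≤ Real.exp (-(lam * T)) * Real.exp (lam ^ 2 * (16 * n) ^ 2) :=
          mul_le_mul_of_nonneg_left (h2.trans (Real.exp_le_exp.2 h5)) (Real.exp_pos _).le
      _ = Real.exp (-(49 / 4 * n)) := by
          rw [← Real.exp_add]
          congr 1
          rw [hlam, hT]
          have h6 : (49 / 4 * n : ℝ) = 49 / 4 * r ^ 2 := by rw [hr2]
          rw [h6]
          field_simp
          ring
  calc (∑ s : Fin n → Fin n → Bool,
        if ¬ QB (fun i j => Am s i j - 2 * δ) (15 * r) then W8 δ s else 0)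
      ≤ ∑ s : Fin n → Fin n → Bool, ∑ k ∈ K,
          (W8 δ s * Real.exp (1 * lam * q s k - lam * T) +
            W8 δ s * Real.exp (-1 * lam * q s k - lam * T)) := by
        apply Finset.sum_le_sum
        intro s _
        have hw := W8_nonneg h0 h1 s
        have hterm : ∀ k ∈ K, 0 ≤ W8 δ s * Real.exp (1 * lam * q s k - lam * T) +
            W8 δ s * Real.exp (-1 * lam * q s k - lam * T) := fun k _ => by positivity
        by_cases hs : ¬ QB (fun i j => Am s i j - 2 * δ) (15 * r)
        · rw [if_pos hs]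
          obtain ⟨k, hk, hkT⟩ := hbad s hs
          refine le_trans ?_ (Finset.single_le_sum hterm hk)
          rcases lt_abs.1 hkT with h | h
          · have h2 : 1 ≤ Real.exp (1 * lam * q s k - lam * T) := by
              apply Real.one_le_exp
              nlinarith
            have h3 : 0 ≤ W8 δ s * Real.exp (-1 * lam * q s k - lam * T) := by positivity
            nlinarith
          · have h2 : 1 ≤ Real.exp (-1 * lam * q s k - lam * T) := by
              apply Real.one_le_exp
              nlinarith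
            have h3 : 0 ≤ W8 δ s * Real.exp (1 * lam * q s k - lam * T) := by positivity
            nlinarith
        · rw [if_neg hs]
          exact Finset.sum_nonneg hterm
    _ = ∑ k ∈ K, (∑ s : Fin n → Fin n → Bool, W8 δ s * Real.exp (1 * lam * q s k - lam * T) +
          ∑ s : Fin n → Fin n → Bool, W8 δ s * Real.exp (-1 * lam * q s k - lam * T)) := by
        rw [Finset.sum_comm]
        simp only [Finset.sum_add_distrib]
    _ ≤ ∑ k ∈ K, (Real.exp (-(49 / 4 * n)) + Real.exp (-(49 / 4 * n))) := by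
        apply Finset.sum_le_sum
        intro k hk
        exact add_le_add (hexp k hk 1 (by norm_num)) (hexp k hk (-1) (by norm_num))
    _ = 2 * (K.card * Real.exp (-(49 / 4 * n))) := by
        rw [Finset.sum_const, nsmul_eq_mul]
        ring
    _ ≤ 2 * (Real.exp (10 * n) * Real.exp (-(49 / 4 * n))) := by
        apply mul_le_mul_of_nonneg_left _ (by norm_num)
        exact mul_le_mul_of_nonneg_right (cnk n hn) (Real.exp_pos _).le
    _ ≤ 2 * Real.exp (-(2 * n)) := by
        apply mul_le_mul_of_nonneg_left _ (by norm_num)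
        rw [← Real.exp_add, Real.exp_le_exp]
        linarith

end Pool.Agent.Q179.KU
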