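import Pool.Agent.Q179.KU.Exw

set_option autoImplicit false

open Finset

namespace Pool.Agent.Q179.KU

open Pool.Agent.Q295.KU

lemma Am_symm {n : ℕ} (s : Fin n → Fin n → Bool) (i j : Fin n) : Am s i j = Am s j i := by
  unfold Am
  rcases lt_trichotomy i j with h | h | h
  · rw [if_pos h, if_neg h.le.not_gt, if_pos h]
  · subst h
    rfl
  · rw [if_neg h.le.not_gt, if_pos h, if_pos h]

lemma Am_self {n : ℕ} (s : Fin n → Fin n → Bool) (i : Fin n) : Am s i i = 0 := by
  unfold Am
  rw [if_neg (lt_irrefl i), if_neg (lt_irrefl i)]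

lemma W8_nonneg {n : ℕ} {δ : ℝ} (h0 : 0 ≤ δ) (h1 : δ ≤ 1 / 2) (s : Fin n → Fin n → Bool) :
    0 ≤ W8 δ s := by
  unfold W8
  apply Finset.prod_nonneg
  intro i _
  apply Finset.prod_nonneg
  intro j _
  split_ifs
  · linarith
  · linarith
  · norm_num

lemma sum_star {n : ℕ} (i : Fin n) (h : Fin n → ℝ) (G : Fin n → Fin n → ℝ)
    (hG : ∀ k l, k < l → G k l = (if k = i then h l else 0) + (if l = i then h k else 0)) :
    ∑ k, ∑ l, (if k < l then G k l else 0) = ∑ l, h l - h i := by
  have h1 : ∀ k l, (if k < l then G k l else 0) =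
      (if k = i then (if i < l then h l else 0) else 0) +
        (if l = i then (if k < i then h k else 0) else 0) := by
    intro k l
    by_cases hkl : k < l
    · rw [if_pos hkl, hG k l hkl]
      congr 1
      · by_cases hk : k = i
        · subst hk
          simp [hkl]
        · simp [hk]
      · by_cases hl : l = i
        · subst hl
          simp [hkl]
        · simp [hl]
    · rw [if_neg hkl]
      by_cases hk : k = i
      · subst hk
        simp only [if_true, hkl, if_false, zero_add]
        by_cases hl : l = k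
        · simp [hl]
        · simp [hl]
      · rw [if_neg hk]
        by_cases hl : l = i
        · subst hl
          simp [hkl]
        · simp [hl]
  simp only [h1, Finset.sum_add_distrib]
  have h2 : ∑ k : Fin n, ∑ l : Fin n, (if k = i then (if i < l then h l else 0) else 0) =
      ∑ l, if i < l then h l else 0 := by
    rw [Finset.sum_comm]
    apply Finset.sum_congr rfl
    intro l _
    rw [Finset.sum_ite_eq' univ i (fun _ => if i < l then h l else 0), if_pos (Finset.mem_univ _)]
  have h3 : ∑ k : Fin n, ∑ l : Fin n, (if l = i then (if k < i then h k else 0) else 0) =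
      ∑ k, if k < i then h k else 0 := by
    apply Finset.sum_congr rfl
    intro k _
    rw [Finset.sum_ite_eq' univ i (fun _ => if k < i then h k else 0), if_pos (Finset.mem_univ _)]
  rw [h2, h3, ← Finset.sum_add_distrib]
  have h4 : h i = ∑ l, if l = i then h l else 0 := by
    rw [Finset.sum_ite_eq' univ i h, if_pos (Finset.mem_univ _)]
  rw [h4, ← Finset.sum_sub_distrib]
  apply Finset.sum_congr rfl
  intro l _
  rcases lt_trichotomy i l with hl | hl | hl
  · rw [if_pos hl, if_neg hl.le.not_gt, if_neg hl.ne']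
    ring
  · subst hl
    simp
  · rw [if_neg hl.le.not_gt, if_pos hl, if_neg hl.ne]
    ring

theorem row : S_ROW := by
  intro n δ c hn h0 h1 hc i
  have hn0 : (0 : ℝ) < n := by exact_mod_cast hn
  set t : ℝ := 2 * δ * ((1 - c) * n - 1) with ht
  have ht0 : 0 ≤ t := mul_nonneg (by positivity) (by linarith)
  set lam : ℝ := t / n with hlam
  have hlam0 : 0 ≤ lam := by positivity
  set b : Fin n → Fin n → ℝ := fun k l => if k = i ∨ l = i then -lam else 0 with hb
  have hX : ∀ s : Fin n → Fin n → Bool,
      (∑ k, ∑ l, if k < l then b k l * (Am s k l - 2 * δ) else 0) =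
        -lam * (∑ j, Am s i j - 2 * δ * n + 2 * δ) := by
    intro s
    rw [sum_star i (fun l => -lam * (Am s i l - 2 * δ)) _]
    · rw [← Finset.mul_sum, Finset.sum_sub_distrib, Am_self]
      simp only [Finset.sum_const, Finset.card_univ, Fintype.card_fin, nsmul_eq_mul]
      ring
    · intro k l hkl
      rw [hb]
      simp only
      by_cases hk : k = i
      · subst hk
        rw [if_pos (Or.inl rfl), if_pos rfl, if_neg hkl.ne', add_zero]
      · by_cases hl : l = i
        · subst hl
          rw [if_pos (Or.inr rfl), if_neg hk, if_pos rfl, zero_add, Am_symm]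
        · rw [if_neg (by tauto), if_neg hk, if_neg hl]
          ring
  have hB : (∑ k, ∑ l, if k < l then b k l ^ 2 / 2 else 0) ≤ n * (lam ^ 2 / 2) := by
    rw [sum_star i (fun _ => lam ^ 2 / 2) _]
    · simp only [Finset.sum_const, Finset.card_univ, Fintype.card_fin, nsmul_eq_mul]
      have : 0 ≤ lam ^ 2 / 2 := by positivity
      linarith
    · intro k l hkl
      rw [hb]
      simp only
      by_cases hk : k = i
      · subst hk
        rw [if_pos (Or.inl rfl), if_pos rfl, if_neg hkl.ne', add_zero]
        ring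
      · by_cases hl : l = i
        · subst hl
          rw [if_pos (Or.inr rfl), if_neg hk, if_pos rfl, zero_add]
          ring
        · rw [if_neg (by tauto), if_neg hk, if_neg hl]
          ring
  have hexw := (exw n δ h0 h1).2 b
  calc (∑ s : Fin n → Fin n → Bool, if ∑ j, Am s i j < c * (2 * δ) * n then W8 δ s else 0)
      ≤ ∑ s : Fin n → Fin n → Bool, Real.exp (-(lam * t)) * (W8 δ s *
          Real.exp (∑ k, ∑ l, if k < l then b k l * (Am s k l - 2 * δ) else 0)) := by
        apply Finset.sum_le_sum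
        intro s _
        have hw := W8_nonneg h0 h1 s
        split_ifs with hs
        · rw [hX]
          have h2 : lam * t ≤ -lam * (∑ j, Am s i j - 2 * δ * n + 2 * δ) := by
            have h3 : ∑ j, Am s i j - 2 * δ * n + 2 * δ ≤ -t := by
              rw [ht]
              linarith
            have := mul_le_mul_of_nonneg_left h3 hlam0
            linarith
          have h4 : 1 ≤ Real.exp (-(lam * t)) *
              Real.exp (-lam * (∑ j, Am s i j - 2 * δ * n + 2 * δ)) := by
            rw [← Real.exp_add]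
            exact Real.one_le_exp (by linarith)
          calc W8 δ s = W8 δ s * 1 := (mul_one _).symm
            _ ≤ W8 δ s * (Real.exp (-(lam * t)) *
              Real.exp (-lam * (∑ j, Am s i j - 2 * δ * n + 2 * δ))) :=
                mul_le_mul_of_nonneg_left h4 hw
            _ = _ := by ring
        · positivity
    _ = Real.exp (-(lam * t)) * ∑ s : Fin n → Fin n → Bool, W8 δ s *
          Real.exp (∑ k, ∑ l, if k < l then b k l * (Am s k l - 2 * δ) else 0) := by
        rw [Finset.mul_sum]
    _ ≤ Real.exp (-(lam * t)) * Real.exp (n * (lam ^ 2 / 2)) := by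
        apply mul_le_mul_of_nonneg_left _ (Real.exp_pos _).le
        exact hexw.trans (Real.exp_le_exp.2 hB)
    _ = Real.exp (-(t ^ 2 / (2 * n))) := by
        rw [← Real.exp_add]
        congr 1
        rw [hlam]
        field_simp
        ring

/-- a one-dimensional Gaussian sum -/
lemma gauss_sum (N : ℕ) : ∑ k ∈ Finset.Icc (-(N : ℤ)) N, Real.exp (-((k : ℝ) ^ 2 / 2)) ≤
    5 - 4 * Real.exp (-(1 / 2)) ^ N := by
  induction N with
  | zero =>
    simp
    norm_num
  | succ N ih =>
    have h1 : Finset.Icc (-((N + 1 : ℕ) : ℤ)) ((N + 1 : ℕ) : ℤ) =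
        insert ((N : ℤ) + 1) (insert (-((N : ℤ) + 1)) (Finset.Icc (-(N : ℤ)) N)) := by
      ext x
      simp only [Finset.mem_Icc, Finset.mem_insert]
      push_cast
      omega
    have hn1 : ((N : ℤ) + 1) ∉ insert (-((N : ℤ) + 1)) (Finset.Icc (-(N : ℤ)) N) := by
      simp only [Finset.mem_Icc, Finset.mem_insert]
      omega
    have hn2 : (-((N : ℤ) + 1)) ∉ Finset.Icc (-(N : ℤ)) N := by
      simp only [Finset.mem_Icc]
      omega
    rw [h1, Finset.sum_insert hn1, Finset.sum_insert hn2]
    set r : ℝ := Real.exp (-(1 / 2)) with hr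
    have hr0 : 0 < r := Real.exp_pos _
    have hr1 : r ≤ 2 / 3 := by
      rw [hr, Real.exp_neg, inv_le_comm₀ (Real.exp_pos _) (by norm_num)]
      have := Real.add_one_le_exp (1 / 2 : ℝ)
      norm_num at this ⊢
      linarith
    have h2 : Real.exp (-(((N : ℝ) + 1) ^ 2 / 2)) ≤ r ^ (N + 1) := by
      rw [hr, ← Real.exp_nat_mul, Real.exp_le_exp]
      push_cast
      have : (0 : ℝ) ≤ N := Nat.cast_nonneg N
      nlinarith
    push_cast
    have h3 : ((-((N : ℝ) + 1)) ^ 2) = ((N : ℝ) + 1) ^ 2 := by ring
    rw [h3]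
    have h4 : r ^ (N + 1) = r ^ N * r := pow_succ r N
    have h5 : 0 < r ^ N := pow_pos hr0 N
    nlinarith

theorem cnk : S_CNK := by
  intro n hn
  set K := (Fintype.piFinset fun _ : Fin n => Finset.Icc (-(4 * n : ℤ)) (4 * n)).filter
    fun k => ∑ i, (k i : ℝ) ^ 2 ≤ 16 * n with hK
  have h1 : (K.card : ℝ) ≤ ∑ k ∈ Fintype.piFinset fun _ : Fin n => Finset.Icc (-(4 * n : ℤ)) (4 * n),
      Real.exp (8 * n) * ∏ i, Real.exp (-((k i : ℝ) ^ 2 / 2)) := by
    calc (K.card : ℝ) = ∑ k ∈ K, (1 : ℝ) := by simp
      _ ≤ ∑ k ∈ K, Real.exp (8 * n) * ∏ i, Real.exp (-((k i : ℝ) ^ 2 / 2)) := by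
          apply Finset.sum_le_sum
          intro k hk
          rw [hK, Finset.mem_filter] at hk
          rw [← Real.exp_sum, ← Real.exp_add]
          apply Real.one_le_exp
          rw [Finset.sum_neg_distrib, ← Finset.sum_div]
          linarith [hk.2]
      _ ≤ _ := by
          apply Finset.sum_le_sum_of_subset_of_nonneg (Finset.filter_subset _ _)
          intro k _ _
          positivity
  refine h1.trans ?_
  rw [← Finset.mul_sum]
  have h2 := Finset.prod_univ_sum (fun _ : Fin n => Finset.Icc (-(4 * n : ℤ)) (4 * n))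
    (fun _ k => Real.exp (-((k : ℝ) ^ 2 / 2)))
  rw [← h2, Finset.prod_const, Finset.card_univ, Fintype.card_fin]
  have h3 := gauss_sum (4 * n)
  have h4 : ∑ k ∈ Finset.Icc (-(4 * n : ℤ)) (4 * n), Real.exp (-((k : ℝ) ^ 2 / 2)) ≤
      Real.exp 2 := by
    push_cast at h3
    have h5 : 0 < Real.exp (-(1 / 2)) ^ (4 * n) := by positivity
    have h6 : (5 : ℝ) ≤ Real.exp 2 := by
      have h7 : Real.exp 2 = Real.exp 1 * Real.exp 1 := by
        rw [← Real.exp_add]
        norm_num
      have := Real.exp_one_gt_d9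
      rw [h7]
      nlinarith
    linarith
  have h5 : (0 : ℝ) ≤ ∑ k ∈ Finset.Icc (-(4 * n : ℤ)) (4 * n), Real.exp (-((k : ℝ) ^ 2 / 2)) :=
    Finset.sum_nonneg fun _ _ => (Real.exp_pos _).le
  calc Real.exp (8 * n) * (∑ k ∈ Finset.Icc (-(4 * n : ℤ)) (4 * n),
        Real.exp (-((k : ℝ) ^ 2 / 2))) ^ n
      ≤ Real.exp (8 * n) * Real.exp 2 ^ n := by
        apply mul_le_mul_of_nonneg_left _ (Real.exp_pos _).le
        exact pow_le_pow_left₀ h5 h4 n
    _ = Real.exp (10 * n) := by
        rw [← Real.exp_nat_mul, ← Real.exp_add]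
        congr 1
        ring

end Pool.Agent.Q179.KU
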